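import Pool.Agent.H105.TU.Dyn

set_option autoImplicit false

/-!
# Escaping orbits over every manifold, stable under all potentials

The tube `𝕋 × ℝ^m` with the coordinates `q = (q 0, …, q m)` (`q 0` an angle) stands for a tubular
neighbourhood of an embedded circle (with trivial normal bundle) in a manifold of dimension `m + 1`;
such circles exist in every chart if `m ≥ 1`.  Every Tonelli Hamiltonian `H₀` over the tube can be
changed over an arbitrarily thin tube `{|q_1| < δ, …, |q_m| < δ}`, and there only for `‖p‖ > R`, into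
a Tonelli Hamiltonian `H` such that for every potential `f` the flow of `H - f` has an open set of
orbits which stay over the tube for all future times and tend to infinity.  Since nothing is changed
off the tube, this is a statement about every manifold `M`: the flow of `H - f` near the circle is
that of a Hamiltonian on `T*M × 𝕋` which equals the given one elsewhere.  The same holds with the
same open set `U` of initial conditions for all Hamiltonians `H'` near `H`, periodic or not.

The model is `H = h(q_0, p_0, t) + exp ((p_1² + … + p_m²)/2 - p_0)` with the Hamiltonian `h` on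
`T*𝕋 × 𝕋` of the starting files: along the accelerating orbits `p_0` grows exponentially, so the
transversal motion freezes.
-/

namespace Pool.Agent.Results.MP_6acca1_an.EveryManifold

open Set
open Pool.Agent.H105.TU

/-- Let `m ≥ 0` and `2 ≤ k ≤ ∞`, let `H₀` be a `C^k` Tonelli Hamiltonian on `T*(𝕋 × ℝ^m) × 𝕋`, `R`
real and `δ > 0`. There is a `C^k` Tonelli Hamiltonian `H` which equals `H₀` at all `(q, p, t)` with
`‖p‖ ≤ R` or `q` off the tube of radius `δ`, with the following properties.

* Let `f` be a periodic potential of class `C²`. There is `G` with `H - f` near `H` (with constant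
  `G` over the tube of radius `δ`). If `|∂H₀/∂t| ≤ C (1 + |H₀|)` over all bounded tubes, then
  the same holds for `H - f` (over a compact manifold this makes the flow complete).
* For every `G` there are a time `t₀` and a nonempty open set `U` such that for every `C²` function
  `H'` near `H` with constant `G`: every point of `U` is the value at `t₀` of a solution of
  Hamilton's equations of `H'` defined for all `t ≥ t₀`; and for every solution on `[t₀, T)` with
  value in `U` at `t₀` and all `t` in `[t₀, T)` the position is in the tube of radius `δ` and the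
  velocity `q_0'(t) = ∂H'/∂p_0` is at least `t - 5/2`. -/
theorem result (m : ℕ) (k : ℕ∞) (hk : 2 ≤ k) (H₀ : Ham m) (h₀ : TonelliHam k H₀) (R δ : ℝ)
    (hδ : 0 < δ) :
    ∃ H : Ham m, TonelliHam k H ∧
      (∀ (q p : Fin (m + 1) → ℝ) (t : ℝ), (‖p‖ ≤ R ∨ ¬ InTube δ q) → H q p t = H₀ q p t) ∧
      (∀ f : (Fin (m + 1) → ℝ) → ℝ → ℝ,
        ContDiff ℝ 2 (fun z : (Fin (m + 1) → ℝ) × ℝ => f z.1 z.2) →
        (∀ (q : Fin (m + 1) → ℝ) (t : ℝ) (a b : ℤ),
          f (Function.update q 0 (q 0 + a)) (t + b) = f q t) →
        (∃ G : ℝ, Near δ G H (fun q p t => H q p t - f q t)) ∧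
          (EnergyBound H₀ → EnergyBound (fun q p t => H q p t - f q t))) ∧
      ∀ G : ℝ, ∃ (t₀ : ℝ) (U : Set ((Fin (m + 1) → ℝ) × (Fin (m + 1) → ℝ))),
        IsOpen U ∧ U.Nonempty ∧
        ∀ H' : Ham m, IsC 2 H' → Near δ G H H' →
          (∀ z ∈ U, ∃ q p : ℝ → Fin (m + 1) → ℝ, q t₀ = z.1 ∧ p t₀ = z.2 ∧
            Solution H' q p (Ici t₀)) ∧
          ∀ (T : ℝ) (q p : ℝ → Fin (m + 1) → ℝ), Solution H' q p (Ico t₀ T) →
            (q t₀, p t₀) ∈ U → ∀ t ∈ Ico t₀ T,
              InTube δ (q t) ∧ t - 5 / 2 ≤ dp H' 0 (q t) (p t) t := by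
  obtain ⟨H, hH, hH0, hE, δ1, R1, c, hδ10, hδ1, hHY⟩ := modify hk h₀ R hδ
  have h2 : IsC 2 H := ContDiff.of_le hH.smooth (Pool.Agent.TH217.TL.two_le hk)
  exact ⟨H, hH, hH0, fun f hf hfp => ⟨near_pot H δ f hf hfp h2,
    fun h => energy_pot h2 (hE h) f hf hfp⟩, fun G => escape hδ10 hδ1 hHY G⟩

end Pool.Agent.Results.MP_6acca1_an.EveryManifold
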